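import Pool.Agent.helper23.CU.SpecE

open Finset Filter Topology

namespace CU

lemma HL_W_pos {d n : ℕ} [NeZero n] (β : ℝ) (σ : Conf d n) : 0 < W β σ := Real.exp_pos _

lemma HL_sum_pos {d n : ℕ} [NeZero n] (β : ℝ) : 0 < ∑ σ : Conf d n, W β σ :=
  sum_pos (fun σ _ => HL_W_pos β σ) ⟨plus, mem_univ _⟩

lemma HL_PrE_le {d n : ℕ} [NeZero n] {ι : Type*} (β : ℝ) (A : Set (Conf d n)) (s : Finset ι)
    (B : ι → Set (Conf d n)) (h : ∀ σ ∈ A, ∃ i ∈ s, σ ∈ B i) : PrE β A ≤ ∑ i ∈ s, PrE β (B i) := by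
  classical
  unfold PrE Ex
  rw [← sum_div, sum_comm]
  refine div_le_div_of_nonneg_right ?_ (HL_sum_pos β).le
  refine sum_le_sum fun σ _ => ?_
  rw [← mul_sum]
  refine mul_le_mul_of_nonneg_left ?_ (HL_W_pos β σ).le
  by_cases hσ : σ ∈ A
  · obtain ⟨i, hi, hB⟩ := h σ hσ
    rw [Set.indicator_of_mem hσ]
    have h1 : (B i).indicator (fun _ => (1 : ℝ)) σ = 1 := by rw [Set.indicator_of_mem hB]
    refine h1.symm.le.trans ?_
    exact single_le_sum (f := fun i => (B i).indicator (fun _ => (1 : ℝ)) σ)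
      (fun j _ => Set.indicator_nonneg (fun _ _ => zero_le_one) _) hi
  · rw [Set.indicator_of_notMem hσ]
    exact sum_nonneg fun j _ => Set.indicator_nonneg (fun _ _ => zero_le_one) _

lemma HL_PrE_one {d n : ℕ} [NeZero n] (β : ℝ) (A : Set (Conf d n)) : PrE β A ≤ 1 := by
  unfold PrE Ex
  rw [div_le_one (HL_sum_pos β)]
  refine sum_le_sum fun σ _ => ?_
  have : A.indicator (fun _ => (1 : ℝ)) σ ≤ 1 := by
    by_cases h : σ ∈ A
    · rw [Set.indicator_of_mem h]
    · rw [Set.indicator_of_notMem h]; exact zero_le_one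
  nlinarith [HL_W_pos β σ]

lemma HL_PrE_empty {d n : ℕ} [NeZero n] (β : ℝ) (A : Set (Conf d n)) (h : ∀ σ, σ ∉ A) : PrE β A = 0 := by
  unfold PrE Ex
  rw [sum_eq_zero, zero_div]
  intro σ _
  rw [Set.indicator_of_notMem (h σ), mul_zero]

lemma HL_near_mono {d n : ℕ} {r s : ℕ} (h : r ≤ s) {x y : Site d n} (hx : Near r x y) : Near s x y :=
  fun k => (hx k).trans h

lemma HL_choose (c : ℝ) (hc : 0 < c) : ∃ r₀ : ℕ, 4 * (2 * (r₀ : ℝ) + 1) * Real.exp (-(c * r₀)) ≤ 1 / 2 := by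
  have h1 : Tendsto (fun x : ℝ => x ^ 1 * Real.exp (-x)) atTop (𝓝 0) := Real.tendsto_pow_mul_exp_neg_atTop_nhds_zero 1
  have h2 : Tendsto (fun x : ℝ => Real.exp (-x)) atTop (𝓝 0) := Real.tendsto_exp_neg_atTop_nhds_zero
  have h3 : Tendsto (fun r : ℕ => c * (r : ℝ)) atTop atTop :=
    tendsto_natCast_atTop_atTop.const_mul_atTop hc
  have h4 := (h1.comp h3).const_mul (8 / c)
  have h5 := (h2.comp h3).const_mul 4
  have h6 := h4.add h5
  simp only [Function.comp_def, mul_zero, add_zero] at h6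
  have h7 : ∀ᶠ r : ℕ in atTop, 8 / c * ((c * (r : ℝ)) ^ 1 * Real.exp (-(c * r))) + 4 * Real.exp (-(c * r)) < 1 / 2 :=
    h6.eventually_lt_const (by norm_num)
  obtain ⟨r, hr⟩ := h7.exists
  refine ⟨r, le_of_eq_of_le ?_ hr.le⟩
  field_simp
  ring

theorem HL (hHJ : HJ_stmt) (hHK : HK_stmt) (hQH : QH_stmt) (hRE : RE_stmt) (hRF : RF_stmt) : HL_stmt := by
  classical
  intro β₁ β hβ₁ hβ ⟨m, hm, hM⟩
  set c : ℝ := 2 * m ^ 2 * (β - β₁) with hc
  have hcpos : 0 < c := by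
    have : 0 < β - β₁ := by linarith
    positivity
  obtain ⟨r₀, hr₀⟩ := HL_choose c hcpos
  set x : ℝ := Real.exp (-2 * β) with hx
  have hβpos : 0 < β := by linarith
  have hx0 : 0 < x := Real.exp_pos _
  have hx1 : x < 1 := by
    rw [hx]; exact Real.exp_lt_one_iff.2 (by linarith)
  set c' : ℝ := Real.log 2 / ((r₀ : ℝ) + 1) with hc'
  have hlog2 : 0 < Real.log 2 := Real.log_pos (by norm_num)
  have hc'pos : 0 < c' := by positivity
  refine ⟨8 + Real.exp (c' * (4 * r₀ + 11)), c', 4, by positivity, hc'pos, ?_⟩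
  intro n r
  have hn1 : (1 : ℝ) ≤ ((n : ℝ) + 3) ^ 4 := one_le_pow₀ (by linarith [(Nat.cast_nonneg n : (0 : ℝ) ≤ n)])
  by_cases hn : 4 * r₀ + 8 ≤ n
  · -- large torus
    have hcut : ∀ u : Site 2 (n + 3), ∑ e ∈ cut r₀ u, x * corr (FS r₀ u) x u (inn r₀ u e) ≤ 1 / 2 := by
      intro u
      obtain ⟨hcard, hk⟩ := hHK (n + 3) r₀ (by omega) u
      have h1 : ∀ e ∈ cut r₀ u, x * corr (FS r₀ u) x u (inn r₀ u e) ≤ Real.exp (-(c * r₀)) := by
        intro e he
        obtain ⟨hin, ⟨k, hk1⟩, _⟩ := hk e he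
        have h2 := hHJ β₁ β m hβ₁ hβ hm hM n r₀ hn u (inn r₀ u e) hin k
        rw [hk1] at h2
        have h3 : 0 < Real.exp (-(c * r₀)) := Real.exp_pos _
        have h4 : corr (FS r₀ u) x u (inn r₀ u e) ≤ Real.exp (-(c * r₀)) := h2
        calc x * corr (FS r₀ u) x u (inn r₀ u e) ≤ x * Real.exp (-(c * r₀)) := mul_le_mul_of_nonneg_left h4 hx0.le
          _ ≤ 1 * Real.exp (-(c * r₀)) := mul_le_mul_of_nonneg_right hx1.le h3.le
          _ = _ := one_mul _
      calc ∑ e ∈ cut r₀ u, x * corr (FS r₀ u) x u (inn r₀ u e)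
          ≤ ∑ e ∈ cut r₀ u, Real.exp (-(c * r₀)) := sum_le_sum h1
        _ = ((cut r₀ u).card : ℝ) * Real.exp (-(c * r₀)) := by rw [sum_const, nsmul_eq_mul]
        _ ≤ (4 * (2 * (r₀ : ℝ) + 1)) * Real.exp (-(c * r₀)) := by
            refine mul_le_mul_of_nonneg_right ?_ (Real.exp_pos _).le
            exact_mod_cast hcard
        _ ≤ 1 / 2 := hr₀
    set q : ℕ := r / (r₀ + 1) with hq
    have hqr : q * (r₀ + 1) ≤ r := Nat.div_mul_le_self _ _
    have hQ : ∀ u w : Site 2 (n + 3), ¬ Near r u w → corr univ x u w ≤ (1 / 2) ^ q := by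
      intro u w huw
      exact hQH (n + 3) r₀ (by omega) x hx0 hx1 hcut q u w (fun h => huw (HL_near_mono hqr h))
    set s : Finset (Site 2 (n + 3) × Site 2 (n + 3)) := univ.filter fun p => ¬ Near r p.1 p.2 with hs
    have hU : PrE (d := 2) (n := n + 3) β {σ | ¬ Good r σ} ≤
        ∑ p ∈ s, PrE β {σ : Conf 2 (n + 3) | (dG (brk σ)).Reachable p.1 p.2} := by
      refine HL_PrE_le β _ s _ ?_
      intro σ hσ
      obtain ⟨u, w, h1, h2⟩ := hRF (n + 3) r (by omega) σ hσ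
      exact ⟨(u, w), by rw [hs, mem_filter]; exact ⟨mem_univ _, h1⟩, h2⟩
    have hcardS : (s.card : ℝ) ≤ ((n : ℝ) + 3) ^ 4 := by
      have h1 : s.card ≤ (univ : Finset (Site 2 (n + 3) × Site 2 (n + 3))).card := card_le_card (filter_subset _ _)
      have h2 : (univ : Finset (Site 2 (n + 3) × Site 2 (n + 3))).card = (n + 3) ^ 4 := by
        rw [card_univ, Fintype.card_prod, Fintype.card_fun, ZMod.card, Fintype.card_fin]; ring
      rw [h2] at h1
      exact_mod_cast h1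
    have hsum : ∑ p ∈ s, PrE β {σ : Conf 2 (n + 3) | (dG (brk σ)).Reachable p.1 p.2} ≤
        ((n : ℝ) + 3) ^ 4 * (4 * (1 / 2) ^ q) := by
      calc ∑ p ∈ s, PrE β {σ : Conf 2 (n + 3) | (dG (brk σ)).Reachable p.1 p.2} ≤ ∑ p ∈ s, (4 * (1 / 2) ^ q : ℝ) := by
            refine sum_le_sum fun p hp => ?_
            have hp' : ¬ Near r p.1 p.2 := (mem_filter.1 hp).2
            refine (hRE (n + 3) (by omega) β hβpos p.1 p.2).trans ?_
            exact mul_le_mul_of_nonneg_left (hQ _ _ hp') (by norm_num)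
        _ = (s.card : ℝ) * (4 * (1 / 2) ^ q) := by rw [sum_const, nsmul_eq_mul]
        _ ≤ _ := mul_le_mul_of_nonneg_right hcardS (by positivity)
    have hpow : ((1 : ℝ) / 2) ^ q ≤ 2 * Real.exp (-c' * r) := by
      have h1 : ((1 : ℝ) / 2) ^ (q + 1) ≤ Real.exp (-c' * r) := by
        have h2 : ((1 : ℝ) / 2) ^ (q + 1) = Real.exp (-(Real.log 2 * ((q : ℝ) + 1))) := by
          rw [Real.exp_neg, Real.exp_mul, Real.exp_log (by norm_num : (0 : ℝ) < 2), one_div, inv_pow]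
          congr 1
          exact_mod_cast (Real.rpow_natCast 2 (q + 1)).symm
        rw [h2]
        refine Real.exp_le_exp.2 ?_
        have h3 : (r : ℝ) ≤ ((q : ℝ) + 1) * ((r₀ : ℝ) + 1) := by
          have : r < (q + 1) * (r₀ + 1) := by
            rw [hq]
            exact Nat.lt_mul_of_div_lt (Nat.lt_succ_self _) (Nat.succ_pos _)
          have h4 : r ≤ (q + 1) * (r₀ + 1) := this.le
          exact_mod_cast h4
        have h5 : c' * (r : ℝ) ≤ Real.log 2 * ((q : ℝ) + 1) := by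
          rw [hc', div_mul_eq_mul_div, div_le_iff₀ (by positivity)]
          nlinarith
        linarith
      have h6 : ((1 : ℝ) / 2) ^ q = 2 * ((1 : ℝ) / 2) ^ (q + 1) := by rw [pow_succ]; ring
      rw [h6]; linarith
    have hE : 0 < Real.exp (-c' * r) := Real.exp_pos _
    have hE2 : 0 < Real.exp (c' * (4 * (r₀ : ℝ) + 11)) := Real.exp_pos _
    calc PrE (d := 2) (n := n + 3) β {σ | ¬ Good r σ} ≤ ((n : ℝ) + 3) ^ 4 * (4 * (1 / 2) ^ q) := hU.trans hsum
      _ ≤ ((n : ℝ) + 3) ^ 4 * (4 * (2 * Real.exp (-c' * r))) := by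
          refine mul_le_mul_of_nonneg_left ?_ (by positivity)
          linarith
      _ = 8 * ((n : ℝ) + 3) ^ 4 * Real.exp (-c' * r) := by ring
      _ ≤ (8 + Real.exp (c' * (4 * r₀ + 11))) * ((n : ℝ) + 3) ^ 4 * Real.exp (-c' * r) := by
          refine mul_le_mul_of_nonneg_right ?_ hE.le
          refine mul_le_mul_of_nonneg_right ?_ (by positivity)
          linarith
  · -- small torus
    have hE : 0 < Real.exp (-c' * r) := Real.exp_pos _
    have hE2 : 0 < Real.exp (c' * (4 * (r₀ : ℝ) + 11)) := Real.exp_pos _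
    by_cases hr : n + 3 ≤ r
    · have h0 : PrE (d := 2) (n := n + 3) β {σ | ¬ Good r σ} = 0 := by
        refine HL_PrE_empty β _ ?_
        intro σ hσ
        apply hσ
        intro e _ e' _ k
        have := ZMod.natAbs_valMinAbs_le (e'.1 k - e.1 k)
        omega
      rw [h0]; positivity
    · refine (HL_PrE_one β _).trans ?_
      have h1 : (r : ℝ) ≤ 4 * r₀ + 11 := by
        have : r ≤ 4 * r₀ + 11 := by omega
        exact_mod_cast this
      have h2 : 1 ≤ Real.exp (c' * (4 * (r₀ : ℝ) + 11)) * Real.exp (-c' * r) := by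
        rw [← Real.exp_add]
        refine Real.one_le_exp ?_
        nlinarith
      calc (1 : ℝ) ≤ Real.exp (c' * (4 * (r₀ : ℝ) + 11)) * Real.exp (-c' * r) := h2
        _ = (0 + Real.exp (c' * (4 * (r₀ : ℝ) + 11))) * 1 * Real.exp (-c' * r) := by ring
        _ ≤ (8 + Real.exp (c' * (4 * r₀ + 11))) * ((n : ℝ) + 3) ^ 4 * Real.exp (-c' * r) := by
          refine mul_le_mul_of_nonneg_right ?_ hE.le
          refine mul_le_mul ?_ hn1 zero_le_one (by positivity)
          linarith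

end CU
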