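import Pool.Agent.helper23.CU.SpecE

open Finset Filter Topology

namespace CU

lemma RC_sum_range {n : ℕ} [NeZero n] {M : Type*} [AddCommMonoid M] (f : ZMod n → M) :
    ∑ j : ZMod n, f j = ∑ j ∈ range n, f (j : ZMod n) := by
  symm
  refine Finset.sum_bij (fun j _ => (j : ZMod n)) (fun _ _ => mem_univ _) ?_ ?_ ?_
  · intro a ha b hb h
    have := congrArg ZMod.val h
    rwa [ZMod.val_cast_of_lt (mem_range.1 ha), ZMod.val_cast_of_lt (mem_range.1 hb)] at this
  · intro b _
    exact ⟨b.val, mem_range.2 (ZMod.val_lt b), by simp⟩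
  · intro a _; rfl

/-- summation around the cycle -/
lemma RC_step {n : ℕ} [NeZero n] (f : ZMod n → ZMod 2) (h : ∑ j : ZMod n, f j = 0) (x : ZMod n) :
    ∑ j ∈ range (x + 1).val, f (j : ZMod n) = ∑ j ∈ range x.val, f (j : ZMod n) + f x := by
  have hx : ((x.val : ℕ) : ZMod n) = x := by simp
  by_cases hl : x.val + 1 < n
  · have : (x + 1).val = x.val + 1 := by
      rw [← ZMod.val_cast_of_lt hl]; congr 1; push_cast; rw [hx]
    rw [this, sum_range_succ, hx]
  · have hlt := ZMod.val_lt x
    have hn : n = x.val + 1 := by omega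
    have h0 : x + 1 = 0 := by
      have : ((x.val + 1 : ℕ) : ZMod n) = 0 := by rw [← hn]; simp
      rw [← this]; push_cast; rw [hx]
    rw [h0, ZMod.val_zero, sum_range_zero]
    have h2 : ∑ j ∈ range n, f (j : ZMod n) = ∑ j ∈ range x.val, f (j : ZMod n) + f x := by
      have : ∑ j ∈ range n, f (j : ZMod n) = ∑ j ∈ range (x.val + 1), f (j : ZMod n) := by
        congr 1; exact congrArg range hn
      rw [this, sum_range_succ, hx]
    rw [← h2, ← RC_sum_range, h]

lemma RC_tel {n : ℕ} (g : ZMod n → ZMod 2) (m : ℕ) :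
    ∑ j ∈ range m, (g (j : ZMod n) + g ((j : ZMod n) + 1)) = g 0 + g (m : ZMod n) := by
  induction m with
  | zero => simp only [sum_range_zero, Nat.cast_zero]; exact (CharTwo.add_self_eq_zero _).symm
  | succ m ih =>
    rw [sum_range_succ, ih]; push_cast
    have := CharTwo.add_self_eq_zero (g (m : ZMod n))
    linear_combination this

lemma RC_bd {n : ℕ} [NeZero n] (η : Finset (Edge 2 n)) (v : Site 2 n) :
    bd η v = (if (v, (0 : Fin 2)) ∈ η then 1 else 0) + (if (v + ev 1, (0 : Fin 2)) ∈ η then 1 else 0) +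
      (if (v, (1 : Fin 2)) ∈ η then 1 else 0) + (if (v + ev 0, (1 : Fin 2)) ∈ η then 1 else 0) := by
  classical
  have h1 : ∑ e ∈ η, (if e.1 = v then (1 : ZMod 2) else 0) =
      (if (v, (0 : Fin 2)) ∈ η then 1 else 0) + (if (v, (1 : Fin 2)) ∈ η then 1 else 0) := by
    have : ∑ e ∈ η, (if e.1 = v then (1 : ZMod 2) else 0) =
        ∑ e : Edge 2 n, if e ∈ η then (if e.1 = v then (1 : ZMod 2) else 0) else 0 := by
      rw [Finset.sum_ite_mem, univ_inter]
    rw [this, Fintype.sum_prod_type]
    rw [Finset.sum_eq_single v]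
    · rw [Fin.sum_univ_two]; simp
    · intro b _ hb; simp [hb]
    · simp
  have h2 : ∑ e ∈ η, (if dn e = v then (1 : ZMod 2) else 0) =
      (if (v + ev 1, (0 : Fin 2)) ∈ η then 1 else 0) + (if (v + ev 0, (1 : Fin 2)) ∈ η then 1 else 0) := by
    have : ∑ e ∈ η, (if dn e = v then (1 : ZMod 2) else 0) =
        ∑ e : Edge 2 n, if e ∈ η then (if dn e = v then (1 : ZMod 2) else 0) else 0 := by
      rw [Finset.sum_ite_mem, univ_inter]
    rw [this, Fintype.sum_prod_type_right, Fin.sum_univ_two]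
    congr 1
    · rw [Finset.sum_eq_single (v + ev 1)]
      · simp [dn]
      · intro b _ hb
        have : ¬ (dn (b, (0 : Fin 2)) = v) := by
          intro h; apply hb; rw [← h]; simp [dn]
        simp [this]
      · simp
    · rw [Finset.sum_eq_single (v + ev 0)]
      · simp [dn]
      · intro b _ hb
        have : ¬ (dn (b, (1 : Fin 2)) = v) := by
          intro h; apply hb; rw [← h]; simp [dn]
        simp [this]
      · simp
  unfold bd
  rw [sum_add_distrib, h1, h2]; ring

/-- an even set with zero line parities has a potential -/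
lemma RC_pot {n : ℕ} [NeZero n] (η : Finset (Edge 2 n)) (hη : bd η = 0)
    (hl : ∀ i : Fin 2, (∑ j : ZMod n, if ((Pi.single i j : Site 2 n), i) ∈ η then (1 : ZMod 2) else 0) = 0) :
    ∃ τ, IsPot η τ := by
  classical
  set a : ZMod n → ZMod n → ZMod 2 := fun p q => if ((![p, q] : Site 2 n), (0 : Fin 2)) ∈ η then 1 else 0 with ha
  set b : ZMod n → ZMod n → ZMod 2 := fun p q => if ((![p, q] : Site 2 n), (1 : Fin 2)) ∈ η then 1 else 0 with hb
  have hv : ∀ x : Site 2 n, x = ![x 0, x 1] := by intro x; ext i; fin_cases i <;> rfl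
  have e0 : ∀ p q : ZMod n, (![p, q] : Site 2 n) + ev 0 = ![p + 1, q] := by
    intro p q; ext i; fin_cases i <;> simp [ev]
  have e1 : ∀ p q : ZMod n, (![p, q] : Site 2 n) + ev 1 = ![p, q + 1] := by
    intro p q; ext i; fin_cases i <;> simp [ev]
  have hcl : ∀ p q, a p q + a p (q + 1) + b p q + b (p + 1) q = 0 := by
    intro p q
    have := congrFun hη ![p, q]
    rw [RC_bd, e0, e1] at this
    exact this
  have hA : ∑ j : ZMod n, a j 0 = 0 := by
    rw [← hl 0]
    refine sum_congr rfl fun j _ => ?_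
    have : (Pi.single (0 : Fin 2) j : Site 2 n) = ![j, 0] := by ext i; fin_cases i <;> simp
    rw [this]
  have hB0 : ∑ j : ZMod n, b 0 j = 0 := by
    rw [← hl 1]
    refine sum_congr rfl fun j _ => ?_
    have : (Pi.single (1 : Fin 2) j : Site 2 n) = ![0, j] := by ext i; fin_cases i <;> simp
    rw [this]
  have hBs : ∀ p, ∑ j : ZMod n, b (p + 1) j = ∑ j : ZMod n, b p j := by
    intro p
    have h1 : ∑ j : ZMod n, (a p j + a p (j + 1) + b p j + b (p + 1) j) = 0 :=
      sum_eq_zero fun j _ => hcl p j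
    rw [sum_add_distrib, sum_add_distrib, sum_add_distrib] at h1
    have h2 : ∑ j : ZMod n, a p (j + 1) = ∑ j : ZMod n, a p j :=
      Equiv.sum_comp (Equiv.addRight (1 : ZMod n)) (fun j => a p j)
    rw [h2] at h1
    have h3 := CharTwo.add_self_eq_zero (∑ j : ZMod n, a p j)
    have h4 := CharTwo.add_self_eq_zero (∑ j : ZMod n, b p j)
    linear_combination h1 - h3 - h4
  have hB : ∀ p, ∑ j : ZMod n, b p j = 0 := by
    intro p
    have key : ∀ k : ℕ, ∑ j : ZMod n, b (k : ZMod n) j = 0 := by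
      intro k
      induction k with
      | zero => simpa using hB0
      | succ k ih => push_cast; rw [hBs, ih]
    have := key p.val
    simpa using this
  refine ⟨fun x => ∑ j ∈ range (x 0).val, a (j : ZMod n) 0 + ∑ j ∈ range (x 1).val, b (x 0) (j : ZMod n), ?_⟩
  have hS : ∀ (p : ZMod n) (m : ℕ), ∑ j ∈ range m, b (p + 1) (j : ZMod n) =
      ∑ j ∈ range m, b p (j : ZMod n) + (a p 0 + a p (m : ZMod n)) := by
    intro p m
    rw [← RC_tel (a p) m, ← sum_add_distrib]
    refine sum_congr rfl fun j _ => ?_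
    have h1 := hcl p (j : ZMod n)
    have h3 := CharTwo.add_self_eq_zero (a p (j : ZMod n))
    have h4 := CharTwo.add_self_eq_zero (b p (j : ZMod n))
    have h5 := CharTwo.add_self_eq_zero (a p ((j : ZMod n) + 1))
    linear_combination h1 - h3 - h4 - h5
  intro x i
  obtain ⟨p, q, rfl⟩ : ∃ p q, x = ![p, q] := ⟨x 0, x 1, hv x⟩
  fin_cases i
  · have e0' := e0 p q
    simp only [Fin.zero_eta, e0', Matrix.cons_val_zero, Matrix.cons_val_one]
    show _ = a p q
    rw [RC_step (fun j => a j 0) hA p, hS p q.val]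
    have hq : ((q.val : ℕ) : ZMod n) = q := by simp
    rw [hq]
    have h3 := CharTwo.add_self_eq_zero (a p 0)
    linear_combination h3
  · have e1' := e1 p q
    simp only [Fin.mk_one, e1', Matrix.cons_val_zero, Matrix.cons_val_one]
    show _ = b p q
    rw [RC_step (fun j => b p j) (hB p) q]
    ring

theorem RC : RC_stmt := by
  intro n _ hn η hη hl
  classical
  obtain ⟨τ, hτ⟩ := RC_pot η hη hl
  refine ⟨fun x => decide (τ x = 1), ?_⟩
  ext ⟨x, i⟩
  simp only [brk, mem_filter, mem_univ, true_and]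
  have h := hτ x i
  have hc : ∀ s t : ZMod 2, (decide (s = 1) ≠ decide (t = 1)) ↔ t - s = 1 := by decide
  rw [hc, h]
  by_cases hm : (x, i) ∈ η
  · simp [hm]
  · simp [hm]

end CU
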